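import Pool.Agent.Q312.SelfReg.Incl
import Pool.Agent.Q312.SelfReg.Upper
import Pool.Agent.Q312.SelfReg.Lower

/-!
# MP_e3bf5d_lc: the families `FSPDA n` form an infinite hierarchy

`SPDA A`, `SPDA.language M n` and `FSPDA n` are defined in `Pool/Agent/Q312/SelfReg/Defs.lean`.
-/

namespace Pool.Agent.Results.MP_e3bf5d_lc.Hierarchy

open Pool.Agent.Q312.SelfReg

/-- Different labels belong to different rules. -/
def UniqueLabels {A : Type} (M : SPDA A) : Prop :=
  Function.Injective fun r : M.Ψ => (M.top r, M.src r, M.inp r, M.push r, M.tgt r)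

/-- The languages accepted by the `n`-turn first-move self-regulating pushdown automata in which
different labels belong to different rules. -/
def FSPDAu {A : Type} (n : ℕ) (L : Set (List A)) : Prop :=
  ∃ M : SPDA A, UniqueLabels M ∧ M.language n = L

lemma unique_nx {A : Type} (M : SPDA A) (n : ℕ) (h : UniqueLabels M) : UniqueLabels (nx M n) := by
  intro x y hxy
  simp only [Prod.mk.injEq] at hxy
  obtain ⟨h1, h2, h3, h4, h5⟩ := hxy
  rcases x with _ | _ | _ | _ | ⟨r, hr⟩ | ⟨p, r⟩ <;> rcases y with _ | _ | _ | _ | ⟨s, hs⟩ | ⟨q, s⟩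
  all_goals try rfl
  all_goals try (injection h2; done)
  all_goals try (injection h5; done)
  · simp only [St.st.injEq] at h5
    have : r = s := h (by simp only [Prod.mk.injEq]; exact ⟨h1, hr.trans hs.symm, h3, h4, h5.1⟩)
    subst this
    rfl
  · simp only [St.st.injEq] at h2 h5
    have : r = s := h (by simp only [Prod.mk.injEq]; exact ⟨h1, h2.1, h3, h4, h5.1⟩)
    subst this
    rw [h2.2]

lemma unique_mach (N : ℕ) : UniqueLabels (mach N) := by
  intro x y hxy
  simp only [Prod.mk.injEq] at hxy
  obtain ⟨h1, h2, h3, h4, h5⟩ := hxy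
  cases x <;> cases y <;> simp_all

/-- sortedness of the words of the language -/
lemma sorted_Wd (N m : ℕ) : (Wd N m).Pairwise
    (fun x y => x.1 < y.1 ∨ (x.1 = y.1 ∧ (x.2 = true → y.2 = true))) := by
  rw [Wd, List.pairwise_flatMap]
  constructor
  · intro j _
    rw [List.pairwise_append]
    refine ⟨?_, ?_, ?_⟩
    · rw [List.pairwise_replicate]; right; simp
    · rw [List.pairwise_replicate]; right; simp
    · intro x hx y hy
      rw [List.eq_of_mem_replicate hx, List.eq_of_mem_replicate hy]
      simp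
  · refine List.Pairwise.imp ?_ (List.pairwise_lt_finRange N)
    intro j j' hjj x hx y hy
    left
    have hx' : x.1 = j := by
      rcases List.mem_append.mp hx with h | h <;> rw [List.eq_of_mem_replicate h]
    have hy' : y.1 = j' := by
      rcases List.mem_append.mp hy with h | h <;> rw [List.eq_of_mem_replicate h]
    rw [hx', hy']
    exact hjj

lemma count_Wd (N m : ℕ) (inst : BEq (Fin N × Bool)) [@LawfulBEq _ inst] (a : Fin N × Bool) :
    @List.count _ inst a (Wd N m) = m := by
  rw [Wd, List.count_flatMap]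
  have h1 : ∀ j : Fin N, (List.count a ∘ fun j : Fin N => List.replicate m (j, false) ++
      List.replicate m (j, true)) j = if j = a.1 then m else 0 := by
    intro j
    obtain ⟨i, b⟩ := a
    simp only [Function.comp, List.count_append, List.count_replicate, beq_iff_eq, Prod.mk.injEq]
    rcases b with _ | _ <;> by_cases h : j = i <;> simp [h]
  rw [List.map_congr_left (fun j _ => h1 j)]
  rw [← Fin.sum_univ_def]
  simp

/-- **Theorem.** For every `n`, the family `FSPDA n` is properly included in `FSPDA (n + 1)`, both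
for automata with arbitrarily labelled rules and for automata in which different labels belong to
different rules. -/
theorem result (n : ℕ) :
    ((∀ (A : Type) (L : Set (List A)), FSPDA n L → FSPDA (n + 1) L) ∧
      ∃ (A : Type) (_ : Finite A) (L : Set (List A)), FSPDA (n + 1) L ∧ ¬ FSPDA n L) ∧
    ((∀ (A : Type) (L : Set (List A)), FSPDAu n L → FSPDAu (n + 1) L) ∧
      ∃ (A : Type) (_ : Finite A) (L : Set (List A)), FSPDAu (n + 1) L ∧ ¬ FSPDAu n L) := by
  classical
  have hlow : ¬ FSPDA n (LL (n + 1 + 1)) := by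
    refine lower n (by simp; omega) _ ?_ ?_ ?_
    · rintro w ⟨m, rfl⟩ a b
      exact (count_Wd _ m (@instBEqOfDecidableEq _ fun a b => Classical.propDecidable (a = b)) a).trans
        (count_Wd _ m (@instBEqOfDecidableEq _ fun a b => Classical.propDecidable (a = b)) b).symm
    · rintro w ⟨m, rfl⟩ u ⟨p, q, hpq⟩ x hx y hy
      have h1 := sorted_Wd (n + 1 + 1) m
      rw [← hpq, List.pairwise_append, List.pairwise_append, List.pairwise_append] at h1
      obtain ⟨⟨-, ⟨-, -, h2⟩, -⟩, -, -⟩ := h1
      have h3 := h2 x hx y hy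
      have h4 := h2 y hy x hx
      obtain ⟨x1, x2⟩ := x
      obtain ⟨y1, y2⟩ := y
      simp only at h3 h4
      rcases h3 with h3 | ⟨h3, h5⟩
      · rcases h4 with h4 | ⟨h4, -⟩
        · exact absurd h3 (lt_asymm h4)
        · exact absurd h4.symm h3.ne
      · subst h3
        rcases h4 with h4 | ⟨-, h6⟩
        · exact absurd h4 (lt_irrefl _)
        · rw [Bool.eq_iff_iff.mpr ⟨h5, h6⟩]
    · intro m
      exact ⟨_, ⟨m, rfl⟩, fun a => count_Wd _ m (@instBEqOfDecidableEq _ fun a b => Classical.propDecidable (a = b)) a⟩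
  refine ⟨⟨fun A L h => inclusion n L h, ?_⟩, ⟨?_, ?_⟩⟩
  · exact ⟨_, inferInstance, LL (n + 1 + 1), upper (n + 1) (by omega), hlow⟩
  · rintro A L ⟨M, hM, rfl⟩
    exact ⟨nx M n, unique_nx M n hM, language_nx M n⟩
  · refine ⟨_, inferInstance, LL (n + 1 + 1), ⟨mach (n + 1 + 1), unique_mach _,
      language_mach (n + 1) (by omega)⟩, ?_⟩
    rintro ⟨M, -, hM⟩
    exact hlow ⟨M, hM⟩

end Pool.Agent.Results.MP_e3bf5d_lc.Hierarchy
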